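import Pool.Agent.TH30.GD.Types

/-!
Products of values of the gamma function, and the Gross-Deligne relation for the types in the group
generated by the CM types and the type of the Tate motive.
-/

set_option autoImplicit false
set_option linter.unusedSectionVars false
set_option linter.unusedSimpArgs false

open Matrix

namespace Pool.Agent.TH30.GD

open Pool.Agent.TH30.PD

/-- equality up to a nonzero algebraic factor -/
def Sim (x y : ℂ) : Prop := ∃ a : ℂ, a ≠ 0 ∧ IsAlgebraic ℚ a ∧ x = a * y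

theorem Sim.refl (x : ℂ) : Sim x x := ⟨1, one_ne_zero, isAlgebraic_one, (one_mul x).symm⟩

theorem Sim.symm {x y : ℂ} (h : Sim x y) : Sim y x := by
  obtain ⟨a, ha, ha', e⟩ := h
  refine ⟨a⁻¹, inv_ne_zero ha, ha'.inv, ?_⟩
  rw [e, ← mul_assoc, inv_mul_cancel₀ ha, one_mul]

theorem Sim.trans {x y z : ℂ} (h : Sim x y) (h' : Sim y z) : Sim x z := by
  obtain ⟨a, ha, ha', e⟩ := h
  obtain ⟨c, hc, hc', e'⟩ := h'
  exact ⟨a * c, mul_ne_zero ha hc, ha'.mul hc', by rw [e, e', mul_assoc]⟩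

theorem Sim.mul {x y x' y' : ℂ} (h : Sim x y) (h' : Sim x' y') : Sim (x * x') (y * y') := by
  obtain ⟨a, ha, ha', e⟩ := h
  obtain ⟨c, hc, hc', e'⟩ := h'
  exact ⟨a * c, mul_ne_zero ha hc, ha'.mul hc', by rw [e, e']; ring⟩

theorem Sim.inv {x y : ℂ} (h : Sim x y) : Sim x⁻¹ y⁻¹ := by
  obtain ⟨a, ha, ha', e⟩ := h
  exact ⟨a⁻¹, inv_ne_zero ha, ha'.inv, by rw [e, mul_inv]⟩

/-- `∏_{0<a<d} Γ(1 - a/d) ^ ε(a λ⁻¹)` -/
noncomputable def gammaProd (d : ℕ) (ε : ZMod d → ℚ) (u : (ZMod d)ˣ) : ℝ :=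
  ∏ a ∈ Finset.Ioo 0 d, Real.Gamma (1 - a / d) ^ ((ε (a * ((u⁻¹ : (ZMod d)ˣ) : ZMod d)) : ℚ) : ℝ)

/-- `d p(λ) = ∑_{0<a<d} ε(a) ⟨λ a⟩` -/
def Exps (d : ℕ) (ε : ZMod d → ℚ) (q : (ZMod d)ˣ → ℤ) : Prop :=
  ∀ u : (ZMod d)ˣ, (d : ℚ) * q u = ∑ a ∈ Finset.Ioo 0 d, ε a * (((u : ZMod d) * a).val : ℚ)

theorem arg_pos {d a : ℕ} (h : a ∈ Finset.Ioo 0 d) : 0 < (1 - a / d : ℝ) := by
  obtain ⟨h1, h2⟩ := Finset.mem_Ioo.1 h
  have hd : (0 : ℝ) < d := by exact_mod_cast lt_trans h1 h2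
  have : (a / d : ℝ) < 1 := (div_lt_one hd).2 (by exact_mod_cast h2)
  linarith

theorem gammaProd_pos (d : ℕ) (ε : ZMod d → ℚ) (u : (ZMod d)ˣ) : 0 < gammaProd d ε u :=
  Finset.prod_pos fun _ ha => Real.rpow_pos_of_pos (Real.Gamma_pos_of_pos (arg_pos ha)) _

theorem gammaProd_add (d : ℕ) (ε ε' : ZMod d → ℚ) (u : (ZMod d)ˣ) :
    gammaProd d (fun a => ε a + ε' a) u = gammaProd d ε u * gammaProd d ε' u := by
  rw [gammaProd, gammaProd, gammaProd, ← Finset.prod_mul_distrib]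
  refine Finset.prod_congr rfl fun a ha => ?_
  rw [← Real.rpow_add (Real.Gamma_pos_of_pos (arg_pos ha))]
  push_cast
  rfl

theorem gammaProd_neg (d : ℕ) (ε : ZMod d → ℚ) (u : (ZMod d)ˣ) :
    gammaProd d (fun a => -ε a) u = (gammaProd d ε u)⁻¹ := by
  rw [gammaProd, gammaProd, ← Finset.prod_inv_distrib]
  refine Finset.prod_congr rfl fun a ha => ?_
  rw [← Real.rpow_neg (Real.Gamma_pos_of_pos (arg_pos ha)).le]
  push_cast
  rfl

theorem Exps.add {d : ℕ} {ε ε' : ZMod d → ℚ} {q q' : (ZMod d)ˣ → ℤ} (h : Exps d ε q)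
    (h' : Exps d ε' q') : Exps d (fun a => ε a + ε' a) (fun u => q u + q' u) := by
  intro u
  have e := h u
  have e' := h' u
  rw [Int.cast_add, mul_add, e, e', ← Finset.sum_add_distrib]
  exact Finset.sum_congr rfl fun a _ => (add_mul _ _ _).symm

theorem Exps.neg {d : ℕ} {ε : ZMod d → ℚ} {q : (ZMod d)ˣ → ℤ} (h : Exps d ε q) :
    Exps d (fun a => -ε a) (fun u => -q u) := by
  intro u
  have e := h u
  rw [Int.cast_neg, mul_neg, e, ← Finset.sum_neg_distrib]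
  exact Finset.sum_congr rfl fun a _ => (neg_mul _ _).symm

theorem cast_eq_iff {d : ℕ} [NeZero d] {a : ℕ} (ha : a < d) (x : ZMod d) :
    (a : ZMod d) = x ↔ a = x.val := by
  constructor
  · intro h
    rw [← h, ZMod.val_natCast, Nat.mod_eq_of_lt ha]
  · intro h
    rw [h, ZMod.natCast_zmod_val]

theorem val_mem {d : ℕ} [NeZero d] {x : ZMod d} (hx : x ≠ 0) : x.val ∈ Finset.Ioo 0 d :=
  Finset.mem_Ioo.2 ⟨Nat.pos_of_ne_zero ((ZMod.val_ne_zero x).2 hx), ZMod.val_lt x⟩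

/-- the relation for the Tate motive -/
theorem exps_tate {d : ℕ} [NeZero d] (hd : 2 ≤ d) :
    Exps d (fun x : ZMod d => (if x = 1 then 1 else 0) + if x = -1 then 1 else 0)
      (fun _ => 1) := by
  haveI : Fact (1 < d) := ⟨hd⟩
  intro u
  have h1 : ∀ x : ZMod d, x ≠ 0 → ∑ a ∈ Finset.Ioo 0 d, (if (a : ZMod d) = x then (1 : ℚ) else 0) *
      (((u : ZMod d) * a).val : ℚ) = (((u : ZMod d) * x).val : ℚ) := by
    intro x hx
    rw [Finset.sum_eq_single_of_mem x.val (val_mem hx)]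
    · rw [ZMod.natCast_zmod_val, if_pos rfl, one_mul]
    · intro a ha hax
      rw [if_neg, zero_mul]
      intro h
      exact hax ((cast_eq_iff (Finset.mem_Ioo.1 ha).2 x).1 h)
  have h2 : ∀ a : ℕ, ((if (a : ZMod d) = 1 then (1 : ℚ) else 0) +
      if (a : ZMod d) = -1 then 1 else 0) * (((u : ZMod d) * a).val : ℚ) =
      (if (a : ZMod d) = 1 then (1 : ℚ) else 0) * (((u : ZMod d) * a).val : ℚ) +
      (if (a : ZMod d) = -1 then (1 : ℚ) else 0) * (((u : ZMod d) * a).val : ℚ) := fun a =>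
    add_mul _ _ _
  have hu : (u : ZMod d) ≠ 0 := u.ne_zero
  haveI : NeZero (u : ZMod d) := ⟨hu⟩
  simp only [h2, Finset.sum_add_distrib]
  rw [h1 1 one_ne_zero, h1 (-1) (neg_ne_zero.2 one_ne_zero), mul_one, mul_neg_one,
    ZMod.val_neg_of_ne_zero, Nat.cast_sub (ZMod.val_lt _).le]
  push_cast
  ring

theorem isAlgebraic_exp (d j : ℕ) (hd : d ≠ 0) :
    IsAlgebraic ℚ (Complex.exp (Real.pi * Complex.I * (j / d))) := by
  have h1 : (Complex.exp (Real.pi * Complex.I * (j / d))) ^ (2 * d) = 1 := by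
    rw [← Complex.exp_nat_mul, Complex.exp_eq_one_iff]
    refine ⟨j, ?_⟩
    have : (d : ℂ) ≠ 0 := by exact_mod_cast hd
    push_cast
    field_simp
  have h2 : 0 < 2 * d := by omega
  refine IsAlgebraic.of_pow h2 ?_
  rw [h1]
  exact isAlgebraic_one

theorem isAlgebraic_two_I_sin (d j : ℕ) (hd : d ≠ 0) :
    IsAlgebraic ℚ (2 * Complex.I * Complex.sin (Real.pi * (j / d))) := by
  have h1 := isAlgebraic_exp d j hd
  have h2 : 2 * Complex.I * Complex.sin (Real.pi * (j / d)) =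
      Complex.exp (Real.pi * Complex.I * (j / d)) -
        (Complex.exp (Real.pi * Complex.I * (j / d)))⁻¹ := by
    rw [Complex.sin, ← Complex.exp_neg]
    have e1 : (Real.pi : ℂ) * (j / d) * Complex.I = Real.pi * Complex.I * (j / d) := by ring
    have e2 : -((Real.pi : ℂ) * (j / d)) * Complex.I = -(Real.pi * Complex.I * (j / d)) := by ring
    rw [e1, e2]
    have e3 : Complex.I * Complex.I = -1 := Complex.I_mul_I
    linear_combination (Complex.exp (-(Real.pi * Complex.I * (j / d))) -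
      Complex.exp (Real.pi * Complex.I * (j / d))) * e3
  rw [h2]
  exact h1.sub h1.inv

theorem aux_div (a b S : ℂ) (h : S ≠ 0) : 2 * a * b = 2 * b * S * (a / S) := by
  field_simp

theorem sim_tate {d : ℕ} [NeZero d] (hd : 2 ≤ d) (u : (ZMod d)ˣ) :
    Sim (2 * Real.pi * Complex.I)
      (gammaProd d (fun x : ZMod d => (if x = 1 then 1 else 0) + if x = -1 then 1 else 0) u) := by
  haveI : Fact (1 < d) := ⟨hd⟩
  have hd0 : d ≠ 0 := by omega
  have hu : (u : ZMod d) ≠ 0 := u.ne_zero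
  haveI : NeZero (u : ZMod d) := ⟨hu⟩
  have h1 : ∀ x : ZMod d, x ≠ 0 → gammaProd d (fun y : ZMod d => if y = x then 1 else 0) u =
      Real.Gamma (1 - (((x * u : ZMod d)).val : ℝ) / d) := by
    intro x hx
    have hxu : x * u ≠ 0 := by
      intro h
      apply hx
      have := congrArg (fun t => t * ((u⁻¹ : (ZMod d)ˣ) : ZMod d)) h
      simpa [mul_assoc] using this
    have hiff : ∀ a : ZMod d, a * ((u⁻¹ : (ZMod d)ˣ) : ZMod d) = x ↔ a = x * u := fun a =>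
      Units.mul_inv_eq_iff_eq_mul u
    rw [gammaProd, Finset.prod_eq_single_of_mem (x * u).val (val_mem hxu)]
    · rw [ZMod.natCast_zmod_val, if_pos ((hiff _).2 rfl)]
      push_cast
      rw [Real.rpow_one]
    · intro a ha hax
      rw [if_neg]
      · push_cast
        rw [Real.rpow_zero]
      · intro h
        exact hax ((cast_eq_iff (Finset.mem_Ioo.1 ha).2 (x * u)).1 ((hiff _).1 h))
  rw [gammaProd_add, h1 1 one_ne_zero, h1 (-1) (neg_ne_zero.2 one_ne_zero), one_mul, neg_one_mul,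
    ZMod.val_neg_of_ne_zero, Nat.cast_sub (ZMod.val_lt _).le]
  have hdR : (d : ℝ) ≠ 0 := by exact_mod_cast hd0
  have e1 : 1 - ((d : ℝ) - ((u : ZMod d).val : ℝ)) / d = ((u : ZMod d).val : ℝ) / d := by
    field_simp
    ring
  rw [e1, mul_comm (Real.Gamma (1 - _)), Real.Gamma_mul_Gamma_one_sub]
  have hj := Finset.mem_Ioo.1 (val_mem hu)
  set j := (u : ZMod d).val with hjdef
  have hs : 0 < Real.sin (Real.pi * (j / d)) := by
    apply Real.sin_pos_of_pos_of_lt_pi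
    · have : (0 : ℝ) < j := by exact_mod_cast hj.1
      have : (0 : ℝ) < d := by exact_mod_cast Nat.pos_of_ne_zero hd0
      positivity
    · have h5 : (j / d : ℝ) < 1 := by
        rw [div_lt_one (by exact_mod_cast Nat.pos_of_ne_zero hd0)]
        exact_mod_cast hj.2
      have := Real.pi_pos
      nlinarith
  refine ⟨2 * Complex.I * Complex.sin (Real.pi * (j / d)), ?_, isAlgebraic_two_I_sin d j hd0, ?_⟩
  · have h6 : Complex.sin (Real.pi * (j / d)) = ((Real.sin (Real.pi * (j / d)) : ℝ) : ℂ) := by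
      push_cast
      rfl
    rw [h6]
    have h7 : ((Real.sin (Real.pi * (j / d)) : ℝ) : ℂ) ≠ 0 := by exact_mod_cast hs.ne'
    exact mul_ne_zero (mul_ne_zero two_ne_zero Complex.I_ne_zero) h7
  · push_cast
    have h7 : Complex.sin (Real.pi * (j / d)) ≠ 0 := by
      have h6 : Complex.sin (Real.pi * (j / d)) = ((Real.sin (Real.pi * (j / d)) : ℝ) : ℂ) := by
        push_cast
        rfl
      rw [h6]
      exact_mod_cast hs.ne'
    exact aux_div _ _ _ h7

variable {F : Type} [Field F] [NumberField F]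

theorem hasF_tate : HasF (F := F) tate (fun _ => (1 : F)) (fun _ => 2 * Real.pi * Complex.I)
    (fun _ => 1) where
  ne := ⟨(), one_ne_zero⟩
  R_ne := fun _ => Complex.two_pi_I_ne_zero
  per := by
    intro σ
    refine ⟨fun _ => 1, fun _ => isAlgebraic_one, ?_⟩
    funext i
    change (∑ j : Unit, 2 * (Real.pi : ℂ) * Complex.I * 1) = 2 * (Real.pi : ℂ) * Complex.I * σ 1
    simp
  typ := by
    intro σ
    change (1 : Matrix Unit Unit ℂ) *ᵥ _ = _
    rw [Matrix.one_mulVec]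
    push_cast
    rw [one_smul]

theorem two_pi_mul : (Matrix.of fun _ _ => 2 * Real.pi * Complex.I : Matrix Unit Unit ℂ) *
    (Matrix.of fun _ _ => (2 * Real.pi * Complex.I)⁻¹ : Matrix Unit Unit ℂ) = 1 := by
  ext i j
  rw [Matrix.mul_apply, Matrix.one_apply, if_pos (Subsingleton.elim i j)]
  have h := mul_inv_cancel₀ Complex.two_pi_I_ne_zero
  simpa using h

theorem hasF_tate_dual : HasF (F := F) tate.dual (fun _ => (1 : F))
    (fun _ => (2 * Real.pi * Complex.I)⁻¹) (fun _ => -1) where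
  ne := ⟨(), one_ne_zero⟩
  R_ne := fun _ => inv_ne_zero Complex.two_pi_I_ne_zero
  per := by
    intro σ
    refine ⟨fun _ => 1, fun _ => isAlgebraic_one, ?_⟩
    have h1 : ((tate.c)⁻¹ : Matrix Unit Unit ℂ) = fun _ _ => (2 * Real.pi * Complex.I)⁻¹ :=
      Matrix.inv_eq_right_inv two_pi_mul
    funext i
    have h2 : (tate.dual.c : Matrix Unit Unit ℂ) = fun _ _ => (2 * Real.pi * Complex.I)⁻¹ := by
      change ((tate.c)⁻¹ : Matrix Unit Unit ℂ).transpose = _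
      rw [h1]
      rfl
    change ∑ j : Unit, (tate.dual.c : Matrix Unit Unit ℂ) i j * 1 =
      (2 * (Real.pi : ℂ) * Complex.I)⁻¹ * σ 1
    rw [h2]
    simp
  typ := by
    intro σ
    have h1 : (tate.dual.P : Matrix Unit Unit ℂ) = -1 := by
      change -((1 : Matrix Unit Unit ℂ)).transpose = -1
      rw [Matrix.transpose_one]
    change (tate.dual.P : Matrix Unit Unit ℂ) *ᵥ _ = _
    rw [h1, Matrix.neg_mulVec, Matrix.one_mulVec]
    push_cast
    rw [neg_one_smul]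

/-- The types for which some motive of the class satisfies the relation. -/
def Good (𝓜 : Obj → Prop) (d : ℕ) (φ : (ZMod d)ˣ → (F →ₐ[ℚ] ℂ)) (q : (F →ₐ[ℚ] ℂ) → ℤ) : Prop :=
  ∃ (M : Obj) (β : M.J → F) (R : (F →ₐ[ℚ] ℂ) → ℂ) (ε : ZMod d → ℚ), 𝓜 M ∧ HasF M β R q ∧
    Exps d ε (fun u => q (φ u)) ∧ ∀ u, Sim (R (φ u)) (gammaProd d ε u)

theorem Good.add {𝓜 : Obj → Prop} (h𝓜 : IsTensorClass 𝓜) {d : ℕ}
    {φ : (ZMod d)ˣ → (F →ₐ[ℚ] ℂ)} {q q' : (F →ₐ[ℚ] ℂ) → ℤ} (h : Good 𝓜 d φ q)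
    (h' : Good 𝓜 d φ q') : Good 𝓜 d φ (q + q') := by
  obtain ⟨M, β, R, ε, hM, hF, hE, hS⟩ := h
  obtain ⟨M', β', R', ε', hM', hF', hE', hS'⟩ := h'
  refine ⟨M.tensor M', _, _, fun a => ε a + ε' a, h𝓜.tensor _ _ hM hM', hF.tensor hF',
    hE.add hE', fun u => ?_⟩
  rw [gammaProd_add, Complex.ofReal_mul]
  exact (hS u).mul (hS' u)

theorem good_of_mem {𝓜 : Obj → Prop} (h𝓜 : IsTensorClass 𝓜) {d : ℕ} [NeZero d] (hd : 2 ≤ d)
    (b : Module.Basis (F →ₐ[ℚ] ℂ) ℚ F) {φ : (ZMod d)ˣ → (F →ₐ[ℚ] ℂ)}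
    (hA : ∀ χ : (F →ₐ[ℚ] ℂ) → ℤ, IsCMType χ → ∃ (Q : (F →ₐ[ℚ] ℂ) → ℂ) (ε : ZMod d → ℚ),
      (∀ σ, Q σ ≠ 0) ∧ 𝓜 (line b Q χ) ∧ Exps d ε (fun u => χ (φ u)) ∧
      ∀ u, Sim (Q (φ u)) (gammaProd d ε u))
    (q : (F →ₐ[ℚ] ℂ) → ℤ) (hq : q ∈ AddSubgroup.closure (gens F)) : Good 𝓜 d φ q := by
  have h1 : q ∈ (AddSubgroup.closure (gens F)).toAddSubmonoid := hq
  rw [AddSubgroup.closure_toAddSubmonoid] at h1
  refine AddSubmonoid.closure_induction (motive := fun x _ => Good 𝓜 d φ x) ?_ ?_ ?_ h1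
  · intro x hx
    rcases hx with hx | hx
    · rcases hx with hx | hx
      · obtain ⟨Q, ε, hQ, hM, hE, hS⟩ := hA x hx
        exact ⟨line b Q x, b, Q, ε, hM, hasF_line b Q x hQ, hE, hS⟩
      · subst hx
        exact ⟨tate, _, _, _, h𝓜.tate, hasF_tate, exps_tate hd, fun u => sim_tate hd u⟩
    · have hx' : -x ∈ gens F := hx
      rcases hx' with hx' | hx'
      · obtain ⟨Q, ε, hQ, hM, hE, hS⟩ := hA (-x) hx'
        have h2 := hasF_dual_line b Q (-x) hQ
        have h3 : (fun σ => -(-x) σ) = x := by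
          funext σ
          simp
        rw [h3] at h2
        refine ⟨(line b Q (-x)).dual, b.traceDual, fun σ => (Q σ)⁻¹, fun a => -ε a,
          h𝓜.dual _ hM, h2, ?_, fun u => ?_⟩
        · have h4 := hE.neg
          have h5 : (fun u => -((-x) (φ u))) = fun u => x (φ u) := by
            funext u
            simp
          rwa [h5] at h4
        · rw [gammaProd_neg, Complex.ofReal_inv]
          exact (hS u).inv
      · have hx'' : x = fun _ => -1 := by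
          funext σ
          have := congrFun hx' σ
          simp only [Pi.neg_apply] at this
          omega
        subst hx''
        refine ⟨tate.dual, _, _, fun a => -((if a = 1 then 1 else 0) + if a = -1 then 1 else 0),
          h𝓜.dual _ h𝓜.tate, hasF_tate_dual, (exps_tate hd).neg, fun u => ?_⟩
        rw [gammaProd_neg, Complex.ofReal_inv]
        exact (sim_tate hd u).inv
  · refine ⟨tate.tensor tate.dual, _, _, fun a => ((if a = 1 then 1 else 0) +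
        if a = -1 then 1 else 0) + -((if a = 1 then 1 else 0) + if a = -1 then 1 else 0),
      h𝓜.tensor _ _ h𝓜.tate (h𝓜.dual _ h𝓜.tate), hasF_tate.tensor hasF_tate_dual,
      (exps_tate hd).add (exps_tate hd).neg, fun u => ?_⟩
    rw [gammaProd_add, gammaProd_neg, Complex.ofReal_mul, Complex.ofReal_inv]
    exact (sim_tate hd u).mul (sim_tate hd u).inv
  · intro x y _ _ hx hy
    exact hx.add h𝓜 hy

/-- The Gross-Deligne relation for all motives of rank one over `F` in the class. -/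
theorem gross_deligne {𝓜 : Obj → Prop} (h𝓜 : IsTensorClass 𝓜) {d : ℕ} [NeZero d]
    (hKO : ∀ ε : ZMod d → ℚ, Exps d ε (fun _ => 0) →
      ∀ u, IsAlgebraic ℚ ((gammaProd d ε u : ℝ) : ℂ))
    (b : Module.Basis (F →ₐ[ℚ] ℂ) ℚ F) {φ : (ZMod d)ˣ → (F →ₐ[ℚ] ℂ)}
    (hφ : Function.Surjective φ) (hc : IsCyc d φ)
    (hA : ∀ χ : (F →ₐ[ℚ] ℂ) → ℤ, IsCMType χ → ∃ (Q : (F →ₐ[ℚ] ℂ) → ℂ) (ε : ZMod d → ℚ),
      (∀ σ, Q σ ≠ 0) ∧ 𝓜 (line b Q χ) ∧ Exps d ε (fun u => χ (φ u)) ∧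
      ∀ u, Sim (Q (φ u)) (gammaProd d ε u))
    (Q : (F →ₐ[ℚ] ℂ) → ℂ) (p : (F →ₐ[ℚ] ℂ) → ℤ) (m : ℤ) (hM : 𝓜 (line b Q p))
    (hp : ∀ σ, p σ + p (conjE σ) = m) (ε : ZMod d → ℚ) (hε : Exps d ε (fun u => p (φ u)))
    (u : (ZMod d)ˣ) : Sim (Q (φ u)) (gammaProd d ε u) := by
  have hQ : ∀ σ, Q σ ≠ 0 := by
    intro σ hσ
    have h1 := h𝓜.det _ hM
    have h2 : (line b Q p).c.det = 0 := by
      change (emb b * Matrix.diagonal Q).det = 0
      rw [Matrix.det_mul, Matrix.det_diagonal, Finset.prod_eq_zero (Finset.mem_univ σ) hσ, mul_zero]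
    rw [h2] at h1
    exact not_isUnit_zero h1
  by_cases hd : 2 ≤ d
  · obtain ⟨M, β, R, ε₀, hM₀, hF, hE, hS⟩ := good_of_mem h𝓜 hd b hA p
      (mem_closure p m hp (dichotomy hφ hc))
    have h1 := (hasF_dual_line b Q p hQ).tensor hF
    have h2 : (fun σ => -p σ + p σ) = fun _ : F →ₐ[ℚ] ℂ => (0 : ℤ) := by
      funext σ
      omega
    rw [h2] at h1
    have h3 := h1.algebraic h𝓜 (h𝓜.tensor _ _ (h𝓜.dual _ hM) hM₀) (φ u)
    have h4 : Sim (R (φ u)) (Q (φ u)) := by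
      refine ⟨(Q (φ u))⁻¹ * R (φ u), mul_ne_zero (inv_ne_zero (hQ _)) (hF.R_ne _), h3, ?_⟩
      have := hQ (φ u)
      field_simp
    have h5 := hKO (fun a => ε a + -ε₀ a) (by
      have h6 := hε.add hE.neg
      have h7 : (fun u => p (φ u) + -p (φ u)) = fun _ : (ZMod d)ˣ => (0 : ℤ) := by
        funext u
        omega
      rwa [h7] at h6) u
    have h8 : Sim ((gammaProd d ε u : ℝ) : ℂ) ((gammaProd d ε₀ u : ℝ) : ℂ) := by
      have h9 : ((gammaProd d ε₀ u : ℝ) : ℂ) ≠ 0 := by exact_mod_cast (gammaProd_pos d ε₀ u).ne'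
      have h10 : ((gammaProd d ε u : ℝ) : ℂ) ≠ 0 := by exact_mod_cast (gammaProd_pos d ε u).ne'
      rw [gammaProd_add, gammaProd_neg, Complex.ofReal_mul, Complex.ofReal_inv] at h5
      refine ⟨_, mul_ne_zero h10 (inv_ne_zero h9), h5, ?_⟩
      field_simp
    exact h4.symm.trans ((hS u).trans h8.symm)
  · have hd1 : d = 1 := by
      have := NeZero.ne d
      omega
    subst hd1
    have hempty : Finset.Ioo 0 1 = (∅ : Finset ℕ) := by decide
    have hp0 : p = fun _ => 0 := by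
      funext σ
      obtain ⟨v, rfl⟩ := hφ σ
      have h1 := hε v
      rw [hempty, Finset.sum_empty] at h1
      simpa using h1
    subst hp0
    have h3 := (hasF_line b Q (fun _ => 0) hQ).algebraic h𝓜 hM (φ u)
    refine ⟨Q (φ u), hQ _, h3, ?_⟩
    rw [gammaProd, hempty, Finset.prod_empty, Complex.ofReal_one, mul_one]

end Pool.Agent.TH30.GD
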