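import Pool.Agent.TH30.PD.KS

/-!
Motives of rank one over a number field `F`: multiplicativity of the periods.
-/

set_option autoImplicit false
set_option linter.unusedSectionVars false
set_option linter.unusedSimpArgs false

open Matrix
open scoped Kronecker

namespace Pool.Agent.TH30.GD

open Pool.Agent.TH30.PD

variable {F : Type} [Field F] [NumberField F]

noncomputable instance : DecidableEq (F →ₐ[ℚ] ℂ) := Classical.decEq _

noncomputable instance : Nonempty (F →ₐ[ℚ] ℂ) := ⟨IsAlgClosed.lift⟩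

/-- The matrix of the embeddings of `F` on a basis. -/
noncomputable def emb (b : Module.Basis (F →ₐ[ℚ] ℂ) ℚ F) :
    Matrix (F →ₐ[ℚ] ℂ) (F →ₐ[ℚ] ℂ) ℂ :=
  Matrix.of fun j σ => σ (b j)

/-- The motive of rank one over `F` with periods `Q` and Hodge types `p`: its Betti realisation is
`F` (in the coordinates dual to the basis `b`), its de Rham realisation has the basis of the
eigenvectors `ω_σ`, with image `Q σ` times the eigenvector `(σ (b j))_j`, which lies in `H^{p,q}`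
with `p = p σ`. -/
noncomputable def line (b : Module.Basis (F →ₐ[ℚ] ℂ) ℚ F) (Q : (F →ₐ[ℚ] ℂ) → ℂ)
    (p : (F →ₐ[ℚ] ℂ) → ℤ) : Obj where
  J := F →ₐ[ℚ] ℂ
  c := emb b * Matrix.diagonal Q
  P := emb b * Matrix.diagonal (fun σ => (p σ : ℂ)) * (emb b)⁻¹

theorem embT_mul (b : Module.Basis (F →ₐ[ℚ] ℂ) ℚ F) :
    (emb b) * (emb b.traceDual).transpose = 1 := by
  ext i j
  rw [Matrix.mul_apply, Matrix.one_apply]
  have h1 : Algebra.trace ℚ F (b i * b.traceDual j) = if i = j then 1 else 0 :=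
    b.trace_mul_traceDual i j
  have h2 := trace_eq_sum_embeddings (K := ℚ) (L := F) ℂ (x := b i * b.traceDual j)
  have h3 : ∑ σ : F →ₐ[ℚ] ℂ, emb b i σ * (emb b.traceDual).transpose σ j =
      ∑ σ : F →ₐ[ℚ] ℂ, σ (b i * b.traceDual j) :=
    Finset.sum_congr rfl fun σ _ => by
      simp [emb]
  rw [h3, ← h2, h1]
  split_ifs <;> simp

theorem emb_inv (b : Module.Basis (F →ₐ[ℚ] ℂ) ℚ F) :
    (emb b)⁻¹ = (emb b.traceDual).transpose := Matrix.inv_eq_right_inv (embT_mul b)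

theorem emb_det (b : Module.Basis (F →ₐ[ℚ] ℂ) ℚ F) : IsUnit (emb b).det :=
  Matrix.isUnit_det_of_right_inverse (embT_mul b)

/-- an object with an `F`-eigenfamily -/
structure HasF (M : Obj) (β : M.J → F) (R : (F →ₐ[ℚ] ℂ) → ℂ) (π : (F →ₐ[ℚ] ℂ) → ℤ) : Prop where
  ne : ∃ j, β j ≠ 0
  R_ne : ∀ σ, R σ ≠ 0
  per : ∀ σ : F →ₐ[ℚ] ℂ, ∃ w : M.J → ℂ, (∀ j, IsAlgebraic ℚ (w j)) ∧
    M.c *ᵥ w = R σ • (fun j => σ (β j))
  typ : ∀ σ : F →ₐ[ℚ] ℂ, M.P *ᵥ (fun j => σ (β j)) = (π σ : ℂ) • fun j => σ (β j)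

theorem isAlgebraic_emb (σ : F →ₐ[ℚ] ℂ) (x : F) : IsAlgebraic ℚ (σ x) := by
  have h1 : IsAlgebraic ℚ x := Algebra.IsAlgebraic.isAlgebraic x
  exact h1.algHom σ

theorem isAlgebraic_single {I : Type} [DecidableEq I] (σ j : I) :
    IsAlgebraic ℚ ((Pi.single σ (1 : ℂ) : I → ℂ) j) := by
  by_cases h : j = σ
  · subst h
    simpa using isAlgebraic_one
  · rw [Pi.single_eq_of_ne h]
    exact isAlgebraic_zero

theorem isAlgebraic_sum {I : Type} (s : Finset I) (f : I → ℂ)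
    (h : ∀ i ∈ s, IsAlgebraic ℚ (f i)) : IsAlgebraic ℚ (∑ i ∈ s, f i) := by
  classical
  induction s using Finset.induction_on with
  | empty => simpa using isAlgebraic_zero
  | insert a s ha ih =>
    rw [Finset.sum_insert ha]
    exact (h a (Finset.mem_insert_self a s)).add (ih fun i hi => h i (Finset.mem_insert_of_mem hi))

theorem diag_single {I : Type} [Fintype I] [DecidableEq I] (q : I → ℂ) (σ : I) :
    Matrix.diagonal q *ᵥ Pi.single σ 1 = q σ • Pi.single σ 1 := by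
  funext j
  rw [Matrix.mulVec_diagonal]
  by_cases h : j = σ
  · subst h; simp
  · simp [Pi.single_eq_of_ne h]

theorem emb_single (b : Module.Basis (F →ₐ[ℚ] ℂ) ℚ F) (σ : F →ₐ[ℚ] ℂ) :
    emb b *ᵥ Pi.single σ 1 = fun j => σ (b j) := by
  rw [Matrix.mulVec_single_one]
  rfl

theorem line_per (b : Module.Basis (F →ₐ[ℚ] ℂ) ℚ F) (Q : (F →ₐ[ℚ] ℂ) → ℂ) (σ : F →ₐ[ℚ] ℂ) :
    (emb b * Matrix.diagonal Q) *ᵥ Pi.single σ 1 = Q σ • fun j => σ (b j) := by
  rw [← Matrix.mulVec_mulVec, diag_single, Matrix.mulVec_smul, emb_single]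

theorem line_typ (b : Module.Basis (F →ₐ[ℚ] ℂ) ℚ F) (q : (F →ₐ[ℚ] ℂ) → ℂ) (σ : F →ₐ[ℚ] ℂ) :
    (emb b * Matrix.diagonal q * (emb b)⁻¹) *ᵥ (fun j => σ (b j)) =
      q σ • fun j => σ (b j) := by
  rw [← emb_single, Matrix.mulVec_mulVec, Matrix.mul_assoc, Matrix.nonsing_inv_mul _ (emb_det b),
    Matrix.mul_one, ← Matrix.mulVec_mulVec, diag_single, Matrix.mulVec_smul]

theorem dual_per (b : Module.Basis (F →ₐ[ℚ] ℂ) ℚ F) (Q : (F →ₐ[ℚ] ℂ) → ℂ) (hQ : ∀ σ, Q σ ≠ 0)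
    (σ : F →ₐ[ℚ] ℂ) : ((emb b * Matrix.diagonal Q)⁻¹).transpose *ᵥ Pi.single σ 1 =
      (Q σ)⁻¹ • fun j => σ (b.traceDual j) := by
  have h1 : (emb b * Matrix.diagonal Q)⁻¹ = Matrix.diagonal (fun σ => (Q σ)⁻¹) *
      (emb b.traceDual).transpose := by
    refine Matrix.inv_eq_right_inv ?_
    rw [Matrix.mul_assoc, ← Matrix.mul_assoc (Matrix.diagonal Q), Matrix.diagonal_mul_diagonal]
    have : (fun i => Q i * (Q i)⁻¹) = fun _ => (1 : ℂ) := by
      funext i; exact mul_inv_cancel₀ (hQ i)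
    rw [this, Matrix.diagonal_one, Matrix.one_mul, embT_mul]
  rw [h1, Matrix.transpose_mul, Matrix.transpose_transpose, Matrix.diagonal_transpose,
    ← Matrix.mulVec_mulVec, diag_single, Matrix.mulVec_smul, emb_single]

theorem embT_mul' (b : Module.Basis (F →ₐ[ℚ] ℂ) ℚ F) :
    (emb b).transpose * emb b.traceDual = 1 := by
  have := congrArg Matrix.transpose (mul_eq_one_comm.1 (embT_mul b))
  rwa [Matrix.transpose_mul, Matrix.transpose_transpose, Matrix.transpose_one] at this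

theorem dual_typ (b : Module.Basis (F →ₐ[ℚ] ℂ) ℚ F) (q : (F →ₐ[ℚ] ℂ) → ℂ) (σ : F →ₐ[ℚ] ℂ) :
    (-(emb b * Matrix.diagonal q * (emb b)⁻¹).transpose) *ᵥ (fun j => σ (b.traceDual j)) =
      (-q σ) • fun j => σ (b.traceDual j) := by
  rw [← emb_single, emb_inv, Matrix.transpose_mul, Matrix.transpose_mul,
    Matrix.transpose_transpose, Matrix.diagonal_transpose, Matrix.neg_mulVec,
    Matrix.mulVec_mulVec, Matrix.mul_assoc, Matrix.mul_assoc, embT_mul', Matrix.mul_one,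
    ← Matrix.mulVec_mulVec, diag_single, Matrix.mulVec_smul, neg_smul]

theorem hasF_line (b : Module.Basis (F →ₐ[ℚ] ℂ) ℚ F) (Q : (F →ₐ[ℚ] ℂ) → ℂ)
    (p : (F →ₐ[ℚ] ℂ) → ℤ) (hQ : ∀ σ, Q σ ≠ 0) : HasF (line b Q p) b Q p where
  ne := by
    obtain ⟨σ⟩ : Nonempty (F →ₐ[ℚ] ℂ) := inferInstance
    exact ⟨σ, b.ne_zero σ⟩
  R_ne := hQ
  per := fun σ => ⟨Pi.single σ 1, fun j => isAlgebraic_single σ j, line_per b Q σ⟩
  typ := fun σ => line_typ b (fun σ => (p σ : ℂ)) σ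

theorem hasF_dual_line (b : Module.Basis (F →ₐ[ℚ] ℂ) ℚ F) (Q : (F →ₐ[ℚ] ℂ) → ℂ)
    (p : (F →ₐ[ℚ] ℂ) → ℤ) (hQ : ∀ σ, Q σ ≠ 0) :
    HasF (line b Q p).dual b.traceDual (fun σ => (Q σ)⁻¹) (fun σ => -p σ) where
  ne := by
    obtain ⟨σ⟩ : Nonempty (F →ₐ[ℚ] ℂ) := inferInstance
    exact ⟨σ, b.traceDual.ne_zero σ⟩
  R_ne := fun σ => inv_ne_zero (hQ σ)
  per := fun σ => ⟨Pi.single σ 1, fun j => isAlgebraic_single σ j, dual_per b Q hQ σ⟩
  typ := fun σ => by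
    have h := dual_typ b (fun σ => (p σ : ℂ)) σ
    rw [Int.cast_neg]
    exact h

theorem kron_mulVec {I J : Type} [Fintype I] [DecidableEq I] [Fintype J] [DecidableEq J]
    (A : Matrix I I ℂ) (B : Matrix J J ℂ) (v : I → ℂ) (w : J → ℂ) :
    (A ⊗ₖ B) *ᵥ (fun x => v x.1 * w x.2) = fun x => (A *ᵥ v) x.1 * (B *ᵥ w) x.2 := by
  funext x
  simp only [Matrix.mulVec, dotProduct, Fintype.sum_prod_type, Matrix.kroneckerMap_apply,
    Finset.sum_mul_sum]
  refine Finset.sum_congr rfl fun i _ => Finset.sum_congr rfl fun j _ => ?_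
  ring

theorem HasF.tensor {M N : Obj} {β : M.J → F} {γ : N.J → F} {R S : (F →ₐ[ℚ] ℂ) → ℂ}
    {π ρ : (F →ₐ[ℚ] ℂ) → ℤ} (h : HasF M β R π) (h' : HasF N γ S ρ) :
    HasF (M.tensor N) (fun x => β x.1 * γ x.2) (fun σ => R σ * S σ) (fun σ => π σ + ρ σ) where
  ne := by
    obtain ⟨i, hi⟩ := h.ne
    obtain ⟨j, hj⟩ := h'.ne
    exact ⟨(i, j), mul_ne_zero hi hj⟩
  R_ne := fun σ => mul_ne_zero (h.R_ne σ) (h'.R_ne σ)
  per := by
    intro σ
    obtain ⟨w, hw, e⟩ := h.per σ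
    obtain ⟨w', hw', e'⟩ := h'.per σ
    refine ⟨fun x => w x.1 * w' x.2, fun x => (hw x.1).mul (hw' x.2), ?_⟩
    refine (kron_mulVec M.c N.c w w').trans ?_
    rw [e, e']
    funext x
    simp only [Pi.smul_apply, smul_eq_mul, map_mul]
    ring
  typ := by
    intro σ
    have e := h.typ σ
    have e' := h'.typ σ
    have h1 : (fun x : M.J × N.J => σ (β x.1 * γ x.2)) = fun x => σ (β x.1) * σ (γ x.2) := by
      funext x; rw [map_mul]
    have e1 : (M.P ⊗ₖ (1 : Matrix N.J N.J ℂ)) *ᵥ (fun x : M.J × N.J => σ (β x.1 * γ x.2)) =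
        fun x => (π σ : ℂ) * (σ (β x.1) * σ (γ x.2)) := by
      rw [h1, kron_mulVec M.P 1 (fun j => σ (β j)) (fun j => σ (γ j)), e, Matrix.one_mulVec]
      funext x
      simp only [Pi.smul_apply, smul_eq_mul]
      ring
    have e2 : ((1 : Matrix M.J M.J ℂ) ⊗ₖ N.P) *ᵥ (fun x : M.J × N.J => σ (β x.1 * γ x.2)) =
        fun x => (ρ σ : ℂ) * (σ (β x.1) * σ (γ x.2)) := by
      rw [h1, kron_mulVec 1 N.P (fun j => σ (β j)) (fun j => σ (γ j)), e', Matrix.one_mulVec]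
      funext x
      simp only [Pi.smul_apply, smul_eq_mul]
      ring
    have e3 : tens M.P N.P *ᵥ (fun x : M.J × N.J => σ (β x.1 * γ x.2)) =
        (fun x => (π σ : ℂ) * (σ (β x.1) * σ (γ x.2))) +
          fun x => (ρ σ : ℂ) * (σ (β x.1) * σ (γ x.2)) := by
      rw [tens, Matrix.add_mulVec, e1, e2]
    refine e3.trans ?_
    funext x
    simp only [Pi.add_apply, Pi.smul_apply, smul_eq_mul, map_mul]
    push_cast
    ring

/-- the periods of a family of type zero are algebraic -/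
theorem HasF.algebraic {𝓜 : Obj → Prop} (h𝓜 : IsTensorClass 𝓜) {M : Obj} (hM : 𝓜 M)
    {β : M.J → F} {R : (F →ₐ[ℚ] ℂ) → ℂ} (h : HasF M β R (fun _ => 0)) (τ : F →ₐ[ℚ] ℂ) :
    IsAlgebraic ℚ (R τ) := by
  classical
  choose w hw e using h.per
  have hcard : Fintype.card (F →ₐ[ℚ] ℂ) = Module.finrank ℚ F := AlgHom.card ℚ F ℂ
  let b : Module.Basis (F →ₐ[ℚ] ℂ) ℚ F := (Module.finBasis ℚ F).reindex
    (Fintype.equivFinOfCardEq hcard).symm
  -- the rational classes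
  have key : ∀ x : F, ∀ j, IsAlgebraic ℚ (∑ σ : F →ₐ[ℚ] ℂ, σ x * ((R σ)⁻¹ * w σ j)) := by
    intro x
    let v : M.J → ℚ := fun j => Algebra.trace ℚ F (x * β j)
    have hv : cv v = ∑ σ : F →ₐ[ℚ] ℂ, σ x • fun j => σ (β j) := by
      funext j
      rw [cv, Finset.sum_apply]
      have h2 := trace_eq_sum_embeddings (K := ℚ) (L := F) ℂ (x := x * β j)
      have h3 : ((v j : ℚ) : ℂ) = algebraMap ℚ ℂ (Algebra.trace ℚ F (x * β j)) := rfl
      rw [h3, h2]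
      refine Finset.sum_congr rfl fun σ _ => ?_
      simp
    have hP : M.P *ᵥ cv v = 0 := by
      rw [hv, Matrix.mulVec_sum]
      refine Finset.sum_eq_zero fun σ _ => ?_
      rw [Matrix.mulVec_smul, h.typ σ]
      simp
    obtain ⟨g, hg, hgv⟩ := h𝓜.classes M hM v hP
    have hg2 : g = ∑ σ : F →ₐ[ℚ] ℂ, (σ x * (R σ)⁻¹) • w σ := by
      have h3 : M.c *ᵥ g = M.c *ᵥ ∑ σ : F →ₐ[ℚ] ℂ, (σ x * (R σ)⁻¹) • w σ := by
        rw [hgv, hv, Matrix.mulVec_sum]
        refine Finset.sum_congr rfl fun σ _ => ?_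
        rw [Matrix.mulVec_smul, e σ, smul_smul, mul_assoc, inv_mul_cancel₀ (h.R_ne σ), mul_one]
      have h4 := congrArg (fun v => M.c⁻¹ *ᵥ v) h3
      simp only [Matrix.mulVec_mulVec, Matrix.nonsing_inv_mul _ (h𝓜.det M hM),
        Matrix.one_mulVec] at h4
      exact h4
    intro j
    have h5 : ∑ σ : F →ₐ[ℚ] ℂ, σ x * ((R σ)⁻¹ * w σ j) = g j := by
      rw [hg2, Finset.sum_apply]
      refine Finset.sum_congr rfl fun σ _ => ?_
      rw [Pi.smul_apply, smul_eq_mul, mul_assoc]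
    rw [h5]
    exact hg j
  -- separation of the embeddings
  have hsep : ∀ j, IsAlgebraic ℚ ((R τ)⁻¹ * w τ j) := by
    intro j
    have h1 : (emb b.traceDual).transpose * emb b = 1 := mul_eq_one_comm.1 (embT_mul b)
    have h2 : (R τ)⁻¹ * w τ j = ∑ i, τ (b.traceDual i) *
        ∑ σ : F →ₐ[ℚ] ℂ, σ (b i) * ((R σ)⁻¹ * w σ j) := by
      simp only [Finset.mul_sum]
      rw [Finset.sum_comm]
      have h3 : ∀ σ : F →ₐ[ℚ] ℂ, ∑ i, τ (b.traceDual i) * (σ (b i) * ((R σ)⁻¹ * w σ j)) =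
          (if τ = σ then 1 else 0) * ((R σ)⁻¹ * w σ j) := by
        intro σ
        have h4 := congrFun (congrFun h1 τ) σ
        rw [Matrix.mul_apply, Matrix.one_apply] at h4
        rw [← h4, Finset.sum_mul]
        refine Finset.sum_congr rfl fun i _ => ?_
        simp only [emb, Matrix.transpose_apply, Matrix.of_apply]
        ring
      rw [Finset.sum_congr rfl fun σ _ => h3 σ, Finset.sum_eq_single τ]
      · simp
      · intro σ _ hσ
        rw [if_neg (Ne.symm hσ), zero_mul]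
      · intro hτ; exact absurd (Finset.mem_univ _) hτ
    rw [h2]
    exact isAlgebraic_sum _ _ fun i _ => (isAlgebraic_emb τ _).mul (key (b i) j)
  -- a nonzero coordinate
  obtain ⟨j, hj⟩ : ∃ j, w τ j ≠ 0 := by
    by_contra hcon
    push Not at hcon
    have hw0 : w τ = 0 := funext hcon
    have h1 := e τ
    rw [hw0, Matrix.mulVec_zero] at h1
    obtain ⟨j, hj⟩ := h.ne
    have h2 := congrFun h1 j
    rw [Pi.zero_apply, Pi.smul_apply, smul_eq_mul] at h2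
    rcases mul_eq_zero.1 h2.symm with h3 | h3
    · exact h.R_ne τ h3
    · exact hj ((map_eq_zero τ).1 h3)
  have h1 : R τ = ((R τ)⁻¹ * w τ j)⁻¹ * w τ j := by
    rw [mul_inv, inv_inv, mul_assoc, inv_mul_cancel₀ hj, mul_one]
  rw [h1]
  exact (hsep j).inv.mul (hw τ j)

end Pool.Agent.TH30.GD
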