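import Pool.Agent.TH30.GD.Lines

/-!
The group of the Hodge types of motives of rank one over `F` is generated by the CM types and the
type of the Tate motive.
-/

set_option autoImplicit false
set_option linter.unusedSectionVars false
set_option linter.unusedSimpArgs false

open Matrix

namespace Pool.Agent.TH30.GD

open Pool.Agent.TH30.PD

variable {F : Type} [Field F] [NumberField F]

/-- the complex conjugate of an embedding -/
noncomputable def conjE (σ : F →ₐ[ℚ] ℂ) : F →ₐ[ℚ] ℂ :=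
  ((Complex.conjAe.restrictScalars ℚ : ℂ ≃ₐ[ℚ] ℂ) : ℂ →ₐ[ℚ] ℂ).comp σ

theorem conjE_apply (σ : F →ₐ[ℚ] ℂ) (x : F) : conjE σ x = (starRingEnd ℂ) (σ x) := rfl

theorem conjE_conjE (σ : F →ₐ[ℚ] ℂ) : conjE (conjE σ) = σ := by
  ext x
  rw [conjE_apply, conjE_apply, Complex.conj_conj]

/-- the CM types of `F`: one embedding from each pair of conjugate embeddings -/
def IsCMType (χ : (F →ₐ[ℚ] ℂ) → ℤ) : Prop :=
  (∀ σ, χ σ = 0 ∨ χ σ = 1) ∧ ∀ σ, χ σ + χ (conjE σ) = 1

/-- the CM types and the constant function `1` -/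
def gens (F : Type) [Field F] [NumberField F] : Set ((F →ₐ[ℚ] ℂ) → ℤ) :=
  {χ | IsCMType χ ∨ χ = fun _ => 1}

theorem one_mem_gens : (fun _ => (1 : ℤ) : (F →ₐ[ℚ] ℂ) → ℤ) ∈ AddSubgroup.closure (gens F) := by
  apply AddSubgroup.subset_closure
  exact Or.inr rfl

theorem cm_mem_gens {χ : (F →ₐ[ℚ] ℂ) → ℤ} (h : IsCMType χ) :
    χ ∈ AddSubgroup.closure (gens F) := by
  apply AddSubgroup.subset_closure
  exact Or.inl h

theorem mem_closure (q : (F →ₐ[ℚ] ℂ) → ℤ) (m : ℤ) (hq : ∀ σ, q σ + q (conjE σ) = m)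
    (hd : (∀ σ : F →ₐ[ℚ] ℂ, conjE σ = σ) ∨ (∀ σ : F →ₐ[ℚ] ℂ, conjE σ ≠ σ)) :
    q ∈ AddSubgroup.closure (gens F) := by
  rcases hd with hd | hd
  · obtain ⟨σ₀⟩ : Nonempty (F →ₐ[ℚ] ℂ) := inferInstance
    have h1 : q = q σ₀ • ((fun _ => (1 : ℤ)) : (F →ₐ[ℚ] ℂ) → ℤ) := by
      funext σ
      have h2 := hq σ
      have h3 := hq σ₀
      rw [hd] at h2 h3
      simp only [Pi.smul_apply, smul_eq_mul, mul_one]
      omega
    rw [h1]
    exact AddSubgroup.zsmul_mem _ one_mem_gens _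
  · let e := Fintype.equivFin (F →ₐ[ℚ] ℂ)
    have hcc : ∀ σ : F →ₐ[ℚ] ℂ, conjE (conjE σ) = σ := conjE_conjE
    have hor : ∀ σ : F →ₐ[ℚ] ℂ, ¬ e σ < e (conjE σ) ↔ e (conjE σ) < e σ := by
      intro σ
      constructor
      · intro h
        refine lt_of_le_of_ne (not_lt.1 h) ?_
        intro h2
        exact hd σ (e.injective h2)
      · intro h
        exact not_lt.2 h.le
    let χ₀ : (F →ₐ[ℚ] ℂ) → ℤ := fun σ => if e σ < e (conjE σ) then 1 else 0
    have hχ₀ : IsCMType χ₀ := by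
      refine ⟨fun σ => ?_, fun σ => ?_⟩
      · by_cases h : e σ < e (conjE σ)
        · exact Or.inr (if_pos h)
        · exact Or.inl (if_neg h)
      · by_cases h : e σ < e (conjE σ)
        · have h2 : ¬ e (conjE σ) < e (conjE (conjE σ)) := by
            rw [hcc]; exact not_lt.2 h.le
          change (if e σ < e (conjE σ) then (1 : ℤ) else 0) +
            (if e (conjE σ) < e (conjE (conjE σ)) then 1 else 0) = 1
          rw [if_pos h, if_neg h2]
          norm_num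
        · have h2 : e (conjE σ) < e (conjE (conjE σ)) := by
            rw [hcc]; exact (hor σ).1 h
          change (if e σ < e (conjE σ) then (1 : ℤ) else 0) +
            (if e (conjE σ) < e (conjE (conjE σ)) then 1 else 0) = 1
          rw [if_neg h, if_pos h2]
          norm_num
    have hδ : ∀ τ : F →ₐ[ℚ] ℂ, e τ < e (conjE τ) →
        (Pi.single τ 1 - Pi.single (conjE τ) 1 : (F →ₐ[ℚ] ℂ) → ℤ) ∈
          AddSubgroup.closure (gens F) := by
      intro τ hτ
      let χ₁ : (F →ₐ[ℚ] ℂ) → ℤ := χ₀ - (Pi.single τ 1 - Pi.single (conjE τ) 1)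
      have e0 : χ₀ τ = 1 := if_pos hτ
      have e0' : χ₀ (conjE τ) = 0 := by
        have := hχ₀.2 τ
        omega
      have hne : conjE τ ≠ τ := hd τ
      have e1 : χ₁ τ = 0 := by
        simp only [χ₁, Pi.sub_apply, Pi.single_eq_same, Pi.single_eq_of_ne (Ne.symm hne), e0]
        norm_num
      have e2 : χ₁ (conjE τ) = 1 := by
        simp only [χ₁, Pi.sub_apply, Pi.single_eq_same, Pi.single_eq_of_ne hne, e0']
        norm_num
      have e3 : ∀ σ, σ ≠ τ → σ ≠ conjE τ → χ₁ σ = χ₀ σ := by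
        intro σ h1 h2
        simp only [χ₁, Pi.sub_apply, Pi.single_eq_of_ne h1, Pi.single_eq_of_ne h2]
        norm_num
      have hχ₁ : IsCMType χ₁ := by
        refine ⟨fun σ => ?_, fun σ => ?_⟩
        · by_cases h1 : σ = τ
          · subst h1; exact Or.inl e1
          · by_cases h2 : σ = conjE τ
            · subst h2; exact Or.inr e2
            · rw [e3 σ h1 h2]; exact hχ₀.1 σ
        · by_cases h1 : σ = τ
          · subst h1; rw [e1, e2]; norm_num
          · by_cases h2 : σ = conjE τ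
            · subst h2; rw [e2, hcc, e1]; norm_num
            · have h3 : conjE σ ≠ τ := by
                intro h; apply h2; rw [← h, hcc]
              have h4 : conjE σ ≠ conjE τ := by
                intro h; apply h1; rw [← hcc σ, h, hcc]
              rw [e3 σ h1 h2, e3 _ h3 h4]
              exact hχ₀.2 σ
      have h5 : (Pi.single τ 1 - Pi.single (conjE τ) 1 : (F →ₐ[ℚ] ℂ) → ℤ) = χ₀ - χ₁ := by
        simp only [χ₁, sub_sub_cancel]
      rw [h5]
      exact AddSubgroup.sub_mem _ (cm_mem_gens hχ₀)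
        (cm_mem_gens hχ₁)
    have hmain : q = m • (((fun _ => (1 : ℤ)) : (F →ₐ[ℚ] ℂ) → ℤ) - χ₀) +
        ∑ τ, (if e τ < e (conjE τ) then q τ else 0) •
          (Pi.single τ 1 - Pi.single (conjE τ) 1 : (F →ₐ[ℚ] ℂ) → ℤ) := by
      funext σ
      have s1 : ∑ τ : F →ₐ[ℚ] ℂ, (if e τ < e (conjE τ) then q τ else 0) *
          (Pi.single τ 1 : (F →ₐ[ℚ] ℂ) → ℤ) σ = if e σ < e (conjE σ) then q σ else 0 := by
        rw [Finset.sum_eq_single σ]
        · rw [Pi.single_eq_same, mul_one]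
        · intro τ _ hτ
          rw [Pi.single_eq_of_ne (Ne.symm hτ), mul_zero]
        · intro h; exact absurd (Finset.mem_univ _) h
      have s2 : ∑ τ : F →ₐ[ℚ] ℂ, (if e τ < e (conjE τ) then q τ else 0) *
          (Pi.single (conjE τ) 1 : (F →ₐ[ℚ] ℂ) → ℤ) σ =
            if e (conjE σ) < e σ then q (conjE σ) else 0 := by
        rw [Finset.sum_eq_single (conjE σ)]
        · rw [hcc, Pi.single_eq_same, mul_one]
        · intro τ _ hτ
          rw [Pi.single_eq_of_ne, mul_zero]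
          intro h
          apply hτ
          rw [h, hcc]
        · intro h; exact absurd (Finset.mem_univ _) h
      simp only [Pi.add_apply, Pi.smul_apply, Pi.sub_apply, Finset.sum_apply, smul_eq_mul, mul_sub,
        Finset.sum_sub_distrib]
      rw [s1, s2]
      have h3 := hq σ
      by_cases h : e σ < e (conjE σ)
      · have h2 : ¬ e (conjE σ) < e σ := not_lt.2 h.le
        simp only [χ₀, if_pos h, if_neg h2]
        ring
      · have h2 : e (conjE σ) < e σ := (hor σ).1 h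
        simp only [χ₀, if_neg h, if_pos h2]
        linarith
    rw [hmain]
    refine AddSubgroup.add_mem _ (AddSubgroup.zsmul_mem _ (AddSubgroup.sub_mem _
      one_mem_gens (cm_mem_gens hχ₀)) _)
      (AddSubgroup.sum_mem _ fun τ _ => ?_)
    by_cases h : e τ < e (conjE τ)
    · rw [if_pos h]
      exact AddSubgroup.zsmul_mem _ (hδ τ h) _
    · rw [if_neg h, zero_smul]
      exact AddSubgroup.zero_mem _

/-- `F` is in the field of the `d`-th roots of unity -/
def IsCyc (d : ℕ) (φ : (ZMod d)ˣ → (F →ₐ[ℚ] ℂ)) : Prop :=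
  ∀ x : F, ∃ f : Polynomial ℚ, ∀ u : (ZMod d)ˣ,
    φ u x = Polynomial.aeval (Complex.exp (2 * Real.pi * Complex.I *
      ((((u : ZMod d).val : ℕ) : ℂ) / d))) f

theorem dichotomy {d : ℕ} [NeZero d] {φ : (ZMod d)ˣ → (F →ₐ[ℚ] ℂ)} (hφ : Function.Surjective φ)
    (hc : IsCyc d φ) : (∀ σ : F →ₐ[ℚ] ℂ, conjE σ = σ) ∨ (∀ σ : F →ₐ[ℚ] ℂ, conjE σ ≠ σ) := by
  by_contra hcon
  push Not at hcon
  obtain ⟨⟨σ₁, h1⟩, ⟨σ₂, h2⟩⟩ := hcon
  obtain ⟨u₁, rfl⟩ := hφ σ₁
  obtain ⟨u₂, rfl⟩ := hφ σ₂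
  apply h1
  have hd0 : d ≠ 0 := NeZero.ne d
  have hprim : ∀ u : (ZMod d)ˣ, IsPrimitiveRoot (Complex.exp (2 * Real.pi * Complex.I *
      ((((u : ZMod d).val : ℕ) : ℂ) / d))) d := fun u =>
    Complex.isPrimitiveRoot_exp_of_coprime _ d hd0 (ZMod.val_coe_unit_coprime u)
  have hconj : ∀ u : (ZMod d)ˣ, (starRingEnd ℂ) (Complex.exp (2 * Real.pi * Complex.I *
      ((((u : ZMod d).val : ℕ) : ℂ) / d))) = (Complex.exp (2 * Real.pi * Complex.I *
      ((((u : ZMod d).val : ℕ) : ℂ) / d))) ^ (d - 1) := by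
    intro u
    set z := Complex.exp (2 * Real.pi * Complex.I * ((((u : ZMod d).val : ℕ) : ℂ) / d)) with hz
    have hz1 : z ^ d = 1 := (hprim u).pow_eq_one
    have hnorm : ‖z‖ = 1 := Complex.norm_eq_one_of_pow_eq_one hz1 hd0
    have h3 : z ^ (d - 1) * z = 1 := by
      rw [← pow_succ, Nat.sub_add_cancel (Nat.one_le_iff_ne_zero.2 hd0), hz1]
    have h4 : (starRingEnd ℂ) z * z = 1 := by
      rw [mul_comm, Complex.mul_conj, Complex.normSq_eq_norm_sq, hnorm]
      norm_num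
    have hz0 : z ≠ 0 := Complex.exp_ne_zero _
    exact mul_right_cancel₀ hz0 (h4.trans h3.symm)
  ext x
  rw [conjE_apply]
  obtain ⟨f, hf⟩ := hc x
  have key : ∀ u : (ZMod d)ˣ, (starRingEnd ℂ) (φ u x) - φ u x =
      Polynomial.aeval (Complex.exp (2 * Real.pi * Complex.I *
      ((((u : ZMod d).val : ℕ) : ℂ) / d))) (Polynomial.expand ℚ (d - 1) f - f) := by
    intro u
    rw [map_sub, Polynomial.expand_aeval, ← hconj u, hf u]
    congr 1
    have h5 := Polynomial.aeval_algHom_apply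
      ((Complex.conjAe.restrictScalars ℚ : ℂ ≃ₐ[ℚ] ℂ) : ℂ →ₐ[ℚ] ℂ)
      (Complex.exp (2 * Real.pi * Complex.I * ((((u : ZMod d).val : ℕ) : ℂ) / d))) f
    exact h5.symm
  have hz2 : Polynomial.aeval (Complex.exp (2 * Real.pi * Complex.I *
      ((((u₂ : ZMod d).val : ℕ) : ℂ) / d))) (Polynomial.expand ℚ (d - 1) f - f) = 0 := by
    rw [← key u₂, sub_eq_zero, ← conjE_apply, h2]
  have hdvd : Polynomial.cyclotomic d ℚ ∣ (Polynomial.expand ℚ (d - 1) f - f) := by
    rw [Polynomial.cyclotomic_eq_minpoly_rat (hprim u₂) (Nat.pos_of_ne_zero hd0)]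
    exact minpoly.dvd ℚ _ hz2
  have hz3 : Polynomial.aeval (Complex.exp (2 * Real.pi * Complex.I *
      ((((u₁ : ZMod d).val : ℕ) : ℂ) / d))) (Polynomial.expand ℚ (d - 1) f - f) = 0 := by
    obtain ⟨g, hg⟩ := hdvd
    rw [hg, map_mul, Polynomial.cyclotomic_eq_minpoly_rat (hprim u₁) (Nat.pos_of_ne_zero hd0),
      minpoly.aeval, zero_mul]
  have h6 := key u₁
  rw [hz3, sub_eq_zero] at h6
  exact h6

end Pool.Agent.TH30.GD
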